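import Pool.Agent.SPK.Core

/-!
# MP_e219a4_nt: the check for all odd `k < 78557`
-/

set_option autoImplicit false

namespace Pool.Agent.SPK

theorem chkAll : loopk2 0 479 82 = true := by decide +kernel

theorem big_all (k : ℕ) (h1 : Odd k) (h2 : k < 78557) : Big 1000 k := by
  obtain ⟨j, rfl⟩ := h1
  exact big_of_go (loopk2_spec chkAll j (Nat.zero_le _) (by omega))

end Pool.Agent.SPK
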