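import Pool.Agent.SPK.Core

/-!
# MP_e219a4_nt: three of the twelve values of `k`
-/

set_option autoImplicit false

namespace Pool.Agent.SPK

theorem big4847 : Big 100000 4847 :=
  big_of_loop2 (n := 111) (by norm_num) (by decide +kernel)

theorem big5359 : Big 100000 5359 :=
  big_of_loop2 (n := 270) (by norm_num) (by decide +kernel)

theorem big10223 : Big 100000 10223 :=
  big_of_loop2 (n := 101) (by norm_num) (by decide +kernel)

end Pool.Agent.SPK
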