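import Pool.Agent.SPK.Core

/-!
# MP_e219a4_nt: three of the twelve values of `k`
-/

set_option autoImplicit false

namespace Pool.Agent.SPK

theorem big24737 : Big 100000 24737 :=
  big_of_loop2 (n := 103) (by norm_num) (by decide +kernel)

theorem big27653 : Big 100000 27653 :=
  big_of_loop2 (n := 177) (by norm_num) (by decide +kernel)

theorem big28433 : Big 100000 28433 :=
  big_of_loop2 (n := 193) (by norm_num) (by decide +kernel)

end Pool.Agent.SPK
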