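import Pool.Agent.SPK.Core

/-!
# MP_e219a4_nt: three of the twelve values of `k`
-/

set_option autoImplicit false

namespace Pool.Agent.SPK

theorem big33661 : Big 100000 33661 :=
  big_of_loop2 (n := 72) (by norm_num) (by decide +kernel)

theorem big55459 : Big 100000 55459 :=
  big_of_loop2 (n := 130) (by norm_num) (by decide +kernel)

theorem big67607 : Big 100000 67607 :=
  big_of_loop2 (n := 131) (by norm_num) (by decide +kernel)

end Pool.Agent.SPK
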