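import Mathlib

/-!
# MP_e219a4_nt: prime factors of `k * 2 ^ n + 1` with a small order of `2`
-/

set_option autoImplicit false

namespace Pool.Agent.SPK

/-- all `d` with `s < d ≤ s + l` have `gcd (m, 2 ^ d - 1) = 1` -/
def loop (m s : ℕ) : ℕ → Bool
  | 0 => true
  | l + 1 => Nat.beq (Nat.gcd m (2 ^ (s + l + 1) - 1)) 1 && loop m s l

/-- the same for `a` blocks of length `b` -/
def loop2 (m s b : ℕ) : ℕ → Bool
  | 0 => true
  | a + 1 => loop m (s + a * b) b && loop2 m s b a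

theorem loop_spec {m s : ℕ} : ∀ {l : ℕ}, loop m s l = true → ∀ d, s < d → d ≤ s + l →
    Nat.Coprime m (2 ^ d - 1) := by
  intro l
  induction l with
  | zero => intro _ d h1 h2; omega
  | succ l ih =>
    intro h d h1 h2
    rw [loop, Bool.and_eq_true] at h
    rcases Nat.lt_or_ge (s + l) d with h3 | h3
    · have e : d = s + l + 1 := by omega
      rw [e]
      exact Nat.eq_of_beq_eq_true h.1
    · exact ih h.2 d h1 h3

theorem loop2_spec {m s b : ℕ} : ∀ {a : ℕ}, loop2 m s b a = true → ∀ d, s < d → d ≤ s + a * b →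
    Nat.Coprime m (2 ^ d - 1) := by
  intro a
  induction a with
  | zero => intro _ d h1 h2; omega
  | succ a ih =>
    intro h d h1 h2
    rw [loop2, Bool.and_eq_true] at h
    rcases Nat.lt_or_ge (s + a * b) d with h3 | h3
    · exact loop_spec h.1 d h3 (by rw [Nat.succ_mul] at h2; omega)
    · exact ih h.2 d h1 h3

/-- if `m` is prime to all `2 ^ d - 1`, `B < d ≤ 2 B`, then `2` has order larger than `2 B` modulo
every odd prime factor of `m` -/
theorem order_gt {m B p : ℕ} (h : ∀ d, B < d → d ≤ 2 * B → Nat.Coprime m (2 ^ d - 1))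
    (hp : p.Prime) (hp2 : p ≠ 2) (hpm : p ∣ m) : 2 * B < orderOf (2 : ZMod p) := by
  have := Fact.mk hp
  by_contra hle
  push Not at hle
  have h2 : (2 : ZMod p) ≠ 0 := by
    intro h0
    have : ((2 : ℕ) : ZMod p) = 0 := by exact_mod_cast h0
    rw [ZMod.natCast_eq_zero_iff] at this
    exact hp2 ((Nat.prime_dvd_prime_iff_eq hp Nat.prime_two).1 this)
  have h3 : orderOf (2 : ZMod p) ∣ p - 1 := orderOf_dvd_of_pow_eq_one (ZMod.pow_card_sub_one_eq_one h2)
  have h4 : 0 < orderOf (2 : ZMod p) := Nat.pos_of_dvd_of_pos h3 (by have := hp.two_le; omega)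
  obtain ⟨o, ho⟩ : ∃ o, o = orderOf (2 : ZMod p) := ⟨_, rfl⟩
  rw [← ho] at hle h4
  have h5 : o * (2 * B / o) ≤ 2 * B := Nat.mul_div_le _ _
  have h6 : 2 * B < o * (2 * B / o) + o := by
    have := Nat.lt_mul_div_succ (2 * B) h4
    rw [Nat.mul_succ] at this
    exact this
  have h7 : 1 ≤ 2 * B / o := Nat.div_pos hle h4
  have h8 : o ≤ o * (2 * B / o) := Nat.le_mul_of_pos_right _ h7
  have hc := h (o * (2 * B / o)) (by omega) h5
  have h9 : (2 : ZMod p) ^ (o * (2 * B / o)) = 1 := by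
    rw [pow_mul, ho, pow_orderOf_eq_one, one_pow]
  have h10 : p ∣ 2 ^ (o * (2 * B / o)) - 1 := by
    rw [← ZMod.natCast_eq_zero_iff, Nat.cast_sub Nat.one_le_two_pow]
    push_cast
    rw [h9, sub_self]
  have h11 : p ∣ Nat.gcd m (2 ^ (o * (2 * B / o)) - 1) := Nat.dvd_gcd hpm h10
  rw [hc] at h11
  exact hp.one_lt.ne' (Nat.dvd_one.1 h11)

/-- `k * 2 ^ n + 1` is odd for `n ≥ 1` -/
theorem ne_two {k n p : ℕ} (hn : 1 ≤ n) (hpm : p ∣ k * 2 ^ n + 1) : p ≠ 2 := by
  rintro rfl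
  obtain ⟨n, rfl⟩ : ∃ j, n = j + 1 := ⟨n - 1, by omega⟩
  have h1 : 2 ∣ k * 2 ^ (n + 1) := ⟨k * 2 ^ n, by ring⟩
  have h2 := (Nat.dvd_add_right h1).1 hpm
  omega

/-- every prime factor `p` of `k * 2 ^ n + 1` has `ord_p(2) > B` -/
def Big (B k : ℕ) : Prop := ∃ n : ℕ, 1 ≤ n ∧ ∀ p : ℕ, p.Prime → p ∣ k * 2 ^ n + 1 →
  B < orderOf (2 : ZMod p)

theorem big_of_loop2 {k n : ℕ} (hn : 1 ≤ n) (h : loop2 (k * 2 ^ n + 1) 50000 250 200 = true) :
    Big 100000 k := by
  refine ⟨n, hn, fun p hp hpm => ?_⟩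
  exact order_gt (B := 50000) (fun d h1 h2 => loop2_spec h d h1 (by omega)) hp (ne_two hn hpm) hpm

/-- the product of the `2 ^ d - 1`, `s < d ≤ s + l` -/
def prodM (s : ℕ) : ℕ → ℕ
  | 0 => 1
  | l + 1 => (2 ^ (s + l + 1) - 1) * prodM s l

theorem dvd_prodM {s d : ℕ} : ∀ {l : ℕ}, s < d → d ≤ s + l → 2 ^ d - 1 ∣ prodM s l := by
  intro l
  induction l with
  | zero => intro h1 h2; omega
  | succ l ih =>
    intro h1 h2
    rw [prodM]
    rcases Nat.lt_or_ge (s + l) d with h3 | h3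
    · have e : d = s + l + 1 := by omega
      rw [e]
      exact dvd_mul_right _ _
    · exact (ih h1 h3).mul_left _

/-- the product of the `2 ^ d - 1`, `500 < d ≤ 1000` -/
def M : ℕ := prodM 500 500

/-- some `n`, `512 - f < n ≤ 512`, has `gcd (k * 2 ^ n + 1, M) = 1` -/
def go (k : ℕ) : ℕ → Bool
  | 0 => false
  | f + 1 => Nat.beq (Nat.gcd (k * 2 ^ (512 - f) + 1) M) 1 || go k f

theorem go_spec {k : ℕ} : ∀ {f : ℕ}, f ≤ 512 → go k f = true →
    ∃ n, 1 ≤ n ∧ Nat.Coprime (k * 2 ^ n + 1) M := by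
  intro f
  induction f with
  | zero => intro _ h; exact absurd h (by simp [go])
  | succ f ih =>
    intro hf h
    rw [go, Bool.or_eq_true] at h
    rcases h with h | h
    · exact ⟨512 - f, by omega, Nat.eq_of_beq_eq_true h⟩
    · exact ih (by omega) h

/-- the numbers `2 j + 1`, `s ≤ j < s + l` -/
def loopk (s : ℕ) : ℕ → Bool
  | 0 => true
  | l + 1 => go (2 * (s + l) + 1) 512 && loopk s l

/-- `a` blocks of length `b` -/
def loopk2 (s b : ℕ) : ℕ → Bool
  | 0 => true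
  | a + 1 => loopk (s + a * b) b && loopk2 s b a

theorem loopk_spec {s : ℕ} : ∀ {l : ℕ}, loopk s l = true → ∀ j, s ≤ j → j < s + l →
    go (2 * j + 1) 512 = true := by
  intro l
  induction l with
  | zero => intro _ d h1 h2; omega
  | succ l ih =>
    intro h j h1 h2
    rw [loopk, Bool.and_eq_true] at h
    rcases Nat.lt_or_ge j (s + l) with h3 | h3
    · exact ih h.2 j h1 h3
    · have e : j = s + l := by omega
      rw [e]
      exact h.1

theorem loopk2_spec {s b : ℕ} : ∀ {a : ℕ}, loopk2 s b a = true → ∀ j, s ≤ j → j < s + a * b →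
    go (2 * j + 1) 512 = true := by
  intro a
  induction a with
  | zero => intro _ d h1 h2; omega
  | succ a ih =>
    intro h j h1 h2
    rw [loopk2, Bool.and_eq_true] at h
    rcases Nat.lt_or_ge j (s + a * b) with h3 | h3
    · exact ih h.2 j h1 h3
    · exact loopk_spec h.1 j h3 (by rw [Nat.succ_mul] at h2; omega)

theorem big_of_go {k : ℕ} (h : go k 512 = true) : Big 1000 k := by
  obtain ⟨n, hn, hc⟩ := go_spec le_rfl h
  refine ⟨n, hn, fun p hp hpm => ?_⟩
  refine order_gt (B := 500) (fun d h1 h2 => ?_) hp (ne_two hn hpm) hpm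
  exact Nat.Coprime.coprime_dvd_right (dvd_prodM h1 (by omega)) hc

end Pool.Agent.SPK
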